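import Mathlib
import Pool.Agent.Helper71.SE.Zero

/-!
Sections of the pencil `Y ^ 2 = X ^ 4 + H` over the affine line, with `H` a product of four linear
factors, with prescribed value at the origin.
-/

set_option autoImplicit false

namespace Pool.Agent.Helper94.Iso4

open Polynomial

section Explicit

variable {R : Type*} [CommRing R]

/-- `x + a s` -/
noncomputable def PX (x a : R) : R[X] := C x + C a * X

/-- `y + b₁ s + b₂ s²` -/
noncomputable def PY (y b1 b2 : R) : R[X] := C y + C b1 * X + C b2 * X ^ 2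

/-- first coefficient of the square root; `w = 1 / (2 y)` -/
def B1 (w x a h1 : R) : R := w * (4 * x ^ 3 * a + h1)

/-- second coefficient of the square root -/
def B2 (w x a h1 h2 : R) : R := w * (6 * x ^ 2 * a ^ 2 + h2 - B1 w x a h1 ^ 2)

/-- coefficient of `s³` -/
def E3 (w x a h1 h2 h3 : R) : R :=
  2 * B1 w x a h1 * B2 w x a h1 h2 - 4 * x * a ^ 3 - h3

/-- coefficient of `s⁴` -/
def E4 (w x a h1 h2 h4 : R) : R := B2 w x a h1 h2 ^ 2 - a ^ 4 - h4

theorem key_identity (w x y a h1 h2 h3 h4 : R) (hw : 2 * y * w = 1)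
    (hxy : y ^ 2 = x ^ 4 + 1) (e3 : E3 w x a h1 h2 h3 = 0) (e4 : E4 w x a h1 h2 h4 = 0) :
    PY y (B1 w x a h1) (B2 w x a h1 h2) ^ 2 = PX x a ^ 4 +
      (1 + C h1 * X + C h2 * X ^ 2 + C h3 * X ^ 3 + C h4 * X ^ 4) := by
  have k1 : 2 * y * B1 w x a h1 = 4 * x ^ 3 * a + h1 := by
    rw [B1]
    linear_combination (4 * x ^ 3 * a + h1) * hw
  have k2 : 2 * y * B2 w x a h1 h2 + B1 w x a h1 ^ 2 = 6 * x ^ 2 * a ^ 2 + h2 := by
    rw [B2]
    linear_combination (6 * x ^ 2 * a ^ 2 + h2 - B1 w x a h1 ^ 2) * hw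
  have k3 := e3
  have k4 := e4
  unfold E3 at k3
  unfold E4 at k4
  generalize B1 w x a h1 = b1 at k1 k2 k3 k4 ⊢
  generalize B2 w x a h1 h2 = b2 at k2 k3 k4 ⊢
  have c0 := congrArg (C : R → R[X]) hxy
  have c1 := congrArg (C : R → R[X]) k1
  have c2 := congrArg (C : R → R[X]) k2
  have c3 := congrArg (C : R → R[X]) k3
  have c4 := congrArg (C : R → R[X]) k4
  simp only [map_mul, map_add, map_sub, map_pow, map_one, map_zero, map_ofNat] at c0 c1 c2 c3 c4
  unfold PX PY
  linear_combination c0 + c1 * X + c2 * X ^ 2 + c3 * X ^ 3 + c4 * X ^ 4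

end Explicit

section Catalan

variable {K : Type*} [Field K] [CharZero K]

theorem const_of_eq {A B : K[X]} (h : B ^ 2 = A ^ 4 + 1) : A.natDegree = 0 ∧ B.natDegree = 0 := by
  by_cases hA : A = 0
  · subst hA
    refine ⟨by simp, ?_⟩
    have h1 : B ^ 2 = 1 := by simpa using h
    have h2 : (B ^ 2).natDegree = 0 := by rw [h1]; simp
    rw [natDegree_pow] at h2
    omega
  by_cases hB : B = 0
  · subst hB
    refine ⟨?_, by simp⟩
    have h1 : A ^ 4 = - 1 := by
      have : A ^ 4 + 1 = 0 := by rw [← h]; simp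
      linear_combination this
    have h2 : (A ^ 4).natDegree = 0 := by rw [h1]; simp
    rw [natDegree_pow] at h2
    omega
  have hco : IsCoprime B A := by
    refine ⟨B, - A ^ 3, ?_⟩
    linear_combination h
  have := Polynomial.flt_catalan (p := 2) (q := 4) (r := 4) (a := B) (b := A) (c := 1)
    (u := 1) (v := -1) (w := -1) (by norm_num) (by norm_num) (by norm_num) (by norm_num)
    (by exact_mod_cast (two_ne_zero : (2 : K) ≠ 0)) (by exact_mod_cast (by norm_num : (4 : K) ≠ 0))
    (by exact_mod_cast (by norm_num : (4 : K) ≠ 0)) hB hA one_ne_zero hco one_ne_zero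
    (by simp) (by simp) (by
      simp only [map_one, map_neg]
      linear_combination h)
  exact ⟨this.2.1, this.1⟩

theorem const_of_eq' {A B : K[X]} {k : K} (h : B ^ 2 = A ^ 4 + (1 + C k * X)) : k = 0 := by
  by_contra hk
  have hcop : IsCoprime B A := by
    classical
    rw [← EuclideanDomain.gcd_isUnit_iff]
    by_contra hu
    set G := EuclideanDomain.gcd B A with hG
    have hGB : G ∣ B := EuclideanDomain.gcd_dvd_left B A
    have hGA : G ∣ A := EuclideanDomain.gcd_dvd_right B A
    have h1 : G ^ 2 ∣ (1 + C k * X) := by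
      have h2 : (1 + C k * X : K[X]) = B ^ 2 - A ^ 4 := by linear_combination -h
      rw [h2]
      refine dvd_sub (pow_dvd_pow_of_dvd hGB 2) ?_
      exact (pow_dvd_pow_of_dvd hGA 2).trans (pow_dvd_pow A (by norm_num))
    have hdeg : (1 + C k * X : K[X]).natDegree = 1 := by
      rw [add_comm, natDegree_add_eq_left_of_natDegree_lt]
      · exact natDegree_C_mul_X k hk
      · rw [natDegree_C_mul_X k hk]; simp
    have hne : (1 + C k * X : K[X]) ≠ 0 := by
      intro h0; rw [h0] at hdeg; simp at hdeg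
    have h3 := natDegree_le_of_dvd h1 hne
    rw [hdeg, natDegree_pow] at h3
    have h4 : G.natDegree = 0 := by omega
    have hG0 : G ≠ 0 := by
      intro h0; rw [h0] at h1; simp at h1; exact hne h1
    apply hu
    rw [eq_C_of_natDegree_eq_zero h4] at hG0 ⊢
    rw [isUnit_C, isUnit_iff_ne_zero]
    intro h0; rw [h0] at hG0; simp at hG0
  -- substitute `s = (θ ^ 4 - 1) / k`
  set S : K[X] := C k⁻¹ * (X ^ 4 - 1) with hS
  have hks : 1 + C k * S = X ^ 4 := by
    rw [hS, ← mul_assoc, ← C_mul, mul_inv_cancel₀ hk]; simp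
  have hcomp : (B.comp S) ^ 2 = (A.comp S) ^ 4 + X ^ 4 := by
    have := congrArg (fun P : K[X] => P.comp S) h
    simp only [pow_comp, add_comp, mul_comp, one_comp, C_comp, X_comp] at this
    rw [this, hks]
  have hco : IsCoprime (B.comp S) (A.comp S) := by
    obtain ⟨u, v, huv⟩ := hcop
    refine ⟨u.comp S, v.comp S, ?_⟩
    have := congrArg (fun P : K[X] => P.comp S) huv
    simpa only [add_comp, mul_comp, one_comp] using this
  have hX : ¬ IsUnit (X : K[X]) := not_isUnit_X
  have hB0 : B.comp S ≠ 0 := by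
    intro h0
    rw [h0] at hcomp hco
    have h1 : IsUnit (A.comp S) := isCoprime_zero_left.1 hco
    have h2 : (A.comp S) ^ 4 = - X ^ 4 := by linear_combination -hcomp
    have h3 : IsUnit ((X : K[X]) ^ 4) := by
      rw [← IsUnit.neg_iff, ← h2]
      exact h1.pow 4
    exact hX (isUnit_pow_iff (by norm_num) |>.1 h3)
  have hA0 : A.comp S ≠ 0 := by
    intro h0
    rw [h0] at hcomp hco
    have h1 : IsUnit (B.comp S) := isCoprime_zero_right.1 hco
    have h3 : IsUnit ((X : K[X]) ^ 4) := by
      have h2 : (X : K[X]) ^ 4 = (B.comp S) ^ 2 := by rw [hcomp]; ring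
      rw [h2]
      exact h1.pow 2
    exact hX (isUnit_pow_iff (by norm_num) |>.1 h3)
  have := Polynomial.flt_catalan (p := 2) (q := 4) (r := 4) (a := B.comp S) (b := A.comp S) (c := X)
    (u := 1) (v := -1) (w := -1) (by norm_num) (by norm_num) (by norm_num) (by norm_num)
    (by exact_mod_cast (two_ne_zero : (2 : K) ≠ 0)) (by exact_mod_cast (by norm_num : (4 : K) ≠ 0))
    (by exact_mod_cast (by norm_num : (4 : K) ≠ 0)) hB0 hA0 X_ne_zero hco one_ne_zero
    (by simp) (by simp) (by
      simp only [map_one, map_neg]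
      linear_combination hcomp)
  have h6 := this.2.2
  rw [natDegree_X] at h6
  omega

end Catalan

section Main

variable {K : Type*} [Field K]

/-- product of four linear factors, over a commutative ring -/
noncomputable def HH {R : Type*} [CommRing R] (m : Fin 4 → R) : R[X] := ∏ a, (1 + C (m a) * X)

theorem HH_map {R S : Type*} [CommRing R] [CommRing S] (φ : R →+* S) (m : Fin 4 → R) :
    (HH m).map φ = HH (fun a => φ (m a)) := by
  simp [HH, Polynomial.map_prod]

theorem HH_natDegree_le {R : Type*} [CommRing R] (m : Fin 4 → R) : (HH m).natDegree ≤ 4 := by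
  unfold HH
  refine (natDegree_prod_le _ _).trans ?_
  refine (Finset.sum_le_sum (g := fun _ => 1) fun a _ => ?_).trans (by simp)
  refine (natDegree_add_le _ _).trans ?_
  rw [natDegree_one, Nat.zero_max]
  exact (natDegree_C_mul_le _ _).trans natDegree_X_le

theorem HH_expand {R : Type*} [CommRing R] (m : Fin 4 → R) :
    HH m = 1 + C ((HH m).coeff 1) * X + C ((HH m).coeff 2) * X ^ 2 + C ((HH m).coeff 3) * X ^ 3 +
      C ((HH m).coeff 4) * X ^ 4 := by
  have h0 : (HH m).coeff 0 = 1 := by
    rw [coeff_zero_eq_eval_zero, HH, eval_prod]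
    simp
  conv_lhs => rw [(HH m).as_sum_range_C_mul_X_pow' (n := 5) (by
    have := HH_natDegree_le m; omega)]
  simp only [Finset.sum_range_succ, Finset.sum_range_zero, h0]
  simp

/-- Sections of `Y ^ 2 = X ^ 4 + H_i` with prescribed values at the origin, the `4 N` linear
factors being given by linear forms in `N` parameters, except for the last one, which is free. -/
theorem exists_sections [IsAlgClosed K] [CharZero K] {ι : Type*} [Fintype ι] [DecidableEq ι]
    (i0 : ι) (a0 : Fin 4) (x y : ι → K) (hxy : ∀ i, y i ^ 2 = x i ^ 4 + 1) (hy : ∀ i, y i ≠ 0)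
    (l : ι → Fin 4 → (ι → K) →ₗ[K] K) :
    ∃ (q : ι → K) (k : K) (A B : ι → K[X]), q ≠ 0 ∧
      (∀ i, (A i).eval 0 = x i ∧ (B i).eval 0 = y i) ∧
      (∀ i, (A i).natDegree ≤ 1 ∧ (B i).natDegree ≤ 2) ∧
      ∀ i, B i ^ 2 = A i ^ 4 + ∏ a, (1 + C (if i = i0 ∧ a = a0 then k else l i a q) * X) := by
  classical
  -- the unknowns: `none` is `k`, `inl i` is `q i`, `inr i` is the coefficient of `A i`
  let σ := Option (ι ⊕ ι)
  let R := MvPolynomial σ K
  let c : K → R := fun t => MvPolynomial.C t
  let lp : ι → Fin 4 → R := fun i a =>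
    ∑ j, MvPolynomial.C (l i a (Pi.single j 1)) * MvPolynomial.X (some (Sum.inl j))
  let mp : ι → Fin 4 → R := fun i a =>
    if i = i0 ∧ a = a0 then MvPolynomial.X none else lp i a
  let hp : ι → ℕ → R := fun i n => (HH (mp i)).coeff n
  let w : ι → R := fun i => c ((2 * y i)⁻¹)
  let u1 : ι → R := fun i => MvPolynomial.X (some (Sum.inr i))
  let eqs : ι × Fin 2 → R := fun p =>
    if p.2 = 0 then E3 (w p.1) (c (x p.1)) (u1 p.1) (hp p.1 1) (hp p.1 2) (hp p.1 3)
    else E4 (w p.1) (c (x p.1)) (u1 p.1) (hp p.1 1) (hp p.1 2) (hp p.1 4)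
  -- evaluation
  have evl : ∀ (v : σ → K) (i : ι) (a : Fin 4), MvPolynomial.eval v (lp i a) =
      l i a (fun j => v (some (Sum.inl j))) := by
    intro v i a
    simp only [lp, map_sum, map_mul, MvPolynomial.eval_C, MvPolynomial.eval_X]
    have h1 : (fun j => v (some (Sum.inl j))) =
        ∑ j, v (some (Sum.inl j)) • (Pi.single j (1 : K) : ι → K) := by
      ext t
      simp [Finset.sum_apply, Pi.single_apply]
    rw [h1, map_sum]
    refine Finset.sum_congr rfl fun j _ => ?_
    rw [map_smul, smul_eq_mul, mul_comm]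
  have evm : ∀ (v : σ → K) (i : ι), (fun a => MvPolynomial.eval v (mp i a)) =
      fun a => if i = i0 ∧ a = a0 then v none else l i a (fun j => v (some (Sum.inl j))) := by
    intro v i
    ext a
    simp only [mp]
    split_ifs with h
    · simp
    · exact evl v i a
  let hv : (σ → K) → ι → ℕ → K := fun v i n =>
    (HH (fun a => if i = i0 ∧ a = a0 then v none
      else l i a (fun j => v (some (Sum.inl j))))).coeff n
  have evh : ∀ (v : σ → K) (i : ι) (n : ℕ), MvPolynomial.eval v (hp i n) = hv v i n := by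
    intro v i n
    simp only [hp, hv]
    rw [← evm v i, ← HH_map, coeff_map]
  have ev1 : ∀ (v : σ → K) (i : ι), MvPolynomial.eval v (u1 i) = v (some (Sum.inr i)) := by
    intro v i; simp [u1]
  have evw : ∀ (v : σ → K) (i : ι), MvPolynomial.eval v (w i) = (2 * y i)⁻¹ := by
    intro v i; simp [w, c]
  have evx : ∀ (v : σ → K) (i : ι), MvPolynomial.eval v (c (x i)) = x i := by
    intro v i; simp [c]
  have evE : ∀ (v : σ → K) (i : ι),
      (MvPolynomial.eval v (eqs (i, 0)) = E3 (2 * y i)⁻¹ (x i) (v (some (Sum.inr i)))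
        (hv v i 1) (hv v i 2) (hv v i 3)) ∧
      (MvPolynomial.eval v (eqs (i, 1)) = E4 (2 * y i)⁻¹ (x i) (v (some (Sum.inr i)))
        (hv v i 1) (hv v i 2) (hv v i 4)) := by
    intro v i
    refine ⟨?_, ?_⟩
    · simp only [eqs, if_true, E3, B1, B2, map_add, map_sub, map_mul, map_pow, map_ofNat, evh,
        ev1, evw, evx]
    · simp only [eqs, E4, B1, B2, map_add, map_sub, map_mul, map_pow, map_ofNat, evh,
        ev1, evw, evx, one_ne_zero, if_false]
  have hv0 : ∀ i n, n ≠ 0 → hv 0 i n = 0 := by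
    intro i n hn
    simp only [hv]
    have h1 : (fun a => if i = i0 ∧ a = a0 then (0 : σ → K) none
        else l i a (fun j => (0 : σ → K) (some (Sum.inl j)))) = fun _ => (0 : K) := by
      ext a
      split_ifs
      · rfl
      · exact map_zero (l i a)
    rw [h1, HH]
    simp [coeff_one, hn]
  obtain ⟨e⟩ : Nonempty (Fin (Fintype.card (ι × Fin 2)) ≃ ι × Fin 2) :=
    ⟨(Fintype.equivFin (ι × Fin 2)).symm⟩
  obtain ⟨v, hv1, hv2⟩ := Pool.Agent.Helper71.SE.exists_common_zero (K := K) (ι := σ)
    (fun j => eqs (e j)) (by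
      intro j
      obtain ⟨i, t⟩ := e j
      have h1 : hv 0 i 1 = 0 := hv0 i 1 (by norm_num)
      have h2 : hv 0 i 2 = 0 := hv0 i 2 (by norm_num)
      have h3 : hv 0 i 3 = 0 := hv0 i 3 (by norm_num)
      have h4 : hv 0 i 4 = 0 := hv0 i 4 (by norm_num)
      obtain ⟨r1, r2⟩ := evE 0 i
      fin_cases t
      · refine r1.trans ?_
        simp [E3, B1, B2, h1, h2, h3]
      · refine r2.trans ?_
        simp [E4, B1, B2, h1, h2, h4])
    (by
      rw [Nat.card_eq_fintype_card]
      simp only [σ, Fintype.card_option, Fintype.card_sum, Fintype.card_prod, Fintype.card_fin]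
      omega)
  have hE : ∀ p, MvPolynomial.eval v (eqs p) = 0 := by
    intro p
    have := hv2 (e.symm p)
    simpa using this
  let q : ι → K := fun j => v (some (Sum.inl j))
  let k : K := v none
  let A : ι → K[X] := fun i => PX (x i) (v (some (Sum.inr i)))
  let B : ι → K[X] := fun i => PY (y i)
    (B1 (2 * y i)⁻¹ (x i) (v (some (Sum.inr i))) (hv v i 1))
    (B2 (2 * y i)⁻¹ (x i) (v (some (Sum.inr i))) (hv v i 1) (hv v i 2))
  have hAB : ∀ i, B i ^ 2 = A i ^ 4 +
      ∏ a, (1 + C (if i = i0 ∧ a = a0 then k else l i a q) * X) := by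
    intro i
    obtain ⟨r1, r2⟩ := evE v i
    rw [hE] at r1 r2
    have h2y : 2 * y i * (2 * y i)⁻¹ = 1 := mul_inv_cancel₀ (mul_ne_zero two_ne_zero (hy i))
    have := key_identity (2 * y i)⁻¹ (x i) (y i) _ _ _ _ _ h2y (hxy i) r1.symm r2.symm
    have h2 := HH_expand (fun a => if i = i0 ∧ a = a0 then k else l i a q)
    have h3 : (∏ a, (1 + C (if i = i0 ∧ a = a0 then k else l i a q) * X) : K[X]) =
        HH (fun a => if i = i0 ∧ a = a0 then k else l i a q) := rfl
    rw [h3, h2]
    exact this
  refine ⟨q, k, A, B, ?_, ?_, ?_, hAB⟩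
  · intro hq
    apply hv1
    have hl : ∀ i a, l i a q = 0 := by intro i a; rw [hq]; exact map_zero _
    have hAi : ∀ i, (A i).natDegree = 0 → v (some (Sum.inr i)) = 0 := by
      intro i hi
      have h1 : (A i).coeff 1 = v (some (Sum.inr i)) := by
        simp [A, PX, coeff_C]
      rw [← h1]
      exact coeff_eq_zero_of_natDegree_lt (by omega)
    have hother : ∀ i, i ≠ i0 → (A i).natDegree = 0 := by
      intro i hi
      have h1 := hAB i
      have h2 : (∏ a, (1 + C (if i = i0 ∧ a = a0 then k else l i a q) * X) : K[X]) = 1 := by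
        apply Finset.prod_eq_one
        intro a _
        rw [if_neg (fun h => hi h.1), hl]
        simp
      rw [h2] at h1
      exact (const_of_eq h1).1
    have h00 := hAB i0
    have h01 : (∏ a, (1 + C (if i0 = i0 ∧ a = a0 then k else l i0 a q) * X) : K[X]) =
        1 + C k * X := by
      rw [Finset.prod_eq_single a0]
      · simp
      · intro b _ hb
        rw [if_neg (fun h => hb h.2), hl]
        simp
      · intro h; exact absurd (Finset.mem_univ _) h
    rw [h01] at h00
    have hk : k = 0 := const_of_eq' h00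
    have h02 : (A i0).natDegree = 0 := by
      rw [hk] at h00
      apply (const_of_eq (A := A i0) (B := B i0) _).1
      rw [h00]; simp
    have hall : ∀ i, (A i).natDegree = 0 := by
      intro i
      by_cases h : i = i0
      · rw [h]; exact h02
      · exact hother i h
    funext s
    match s with
    | none => exact hk
    | some (Sum.inl j) => exact congrFun hq j
    | some (Sum.inr i) => exact hAi i (hall i)
  · intro i
    constructor
    · simp [A, PX]
    · simp [B, PY]
  · intro i
    constructor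
    · simp only [A, PX]
      compute_degree
    · simp only [B, PY]
      compute_degree

end Main

end Pool.Agent.Helper94.Iso4
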